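import Pool.Agent.Helper38.SD.Goals

/-!
# Project SD (MP_fc6b1e_nt): packet A_TEI, the decomposition of the units of the p-adic integers
-/

set_option autoImplicit false

namespace Pool.Agent.Helper83.SD

open Polynomial

section

variable {p : ℕ} [hp : Fact p.Prime]

theorem norm_unit (x : ℤ_[p]ˣ) : ‖(x : ℤ_[p])‖ = 1 := PadicInt.isUnit_iff.1 x.isUnit

theorem norm_pred : ‖((p - 1 : ℕ) : ℤ_[p])‖ = 1 := by
  have h1 : ¬ ‖((p - 1 : ℕ) : ℤ_[p])‖ < 1 := by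
    rw [PadicInt.norm_lt_one_iff_dvd]
    intro h
    have h2 : (p : ℤ_[p]) ∣ 1 := by
      have h3 : (1 : ℤ_[p]) = (p : ℤ_[p]) - ((p - 1 : ℕ) : ℤ_[p]) := by
        rw [Nat.cast_sub hp.out.one_lt.le]
        push_cast
        ring
      rw [h3]
      exact dvd_sub (dvd_refl _) h
    rw [← PadicInt.norm_lt_one_iff_dvd, norm_one] at h2
    exact lt_irrefl _ h2
  exact le_antisymm (PadicInt.norm_le_one _) (not_lt.1 h1)

theorem norm_pow_sub (x : ℤ_[p]ˣ) : ‖(x : ℤ_[p]) ^ (p - 1) - 1‖ < 1 := by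
  have h1 : PadicInt.toZMod ((x : ℤ_[p]) ^ (p - 1) - 1) = 0 := by
    rw [map_sub, map_pow, map_one, ZMod.pow_card_sub_one_eq_one, sub_self]
    intro h0
    have h2 : IsUnit (PadicInt.toZMod (x : ℤ_[p])) := x.isUnit.map _
    rw [h0] at h2
    exact not_isUnit_zero h2
  have h2 : (x : ℤ_[p]) ^ (p - 1) - 1 ∈ RingHom.ker (PadicInt.toZMod (p := p)) := h1
  rw [PadicInt.ker_toZMod, IsLocalRing.mem_maximalIdeal, PadicInt.mem_nonunits] at h2
  exact h2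

theorem exists_tei (x : ℤ_[p]ˣ) : ∃ z : ℤ_[p], z ^ (p - 1) = 1 ∧ ‖z - x‖ < 1 ∧
    ∀ z' : ℤ_[p], z' ^ (p - 1) = 1 → ‖z' - x‖ < 1 → z' = z := by
  have hd : ‖aeval (x : ℤ_[p]) (derivative (X ^ (p - 1) - 1 : ℤ_[p][X]))‖ = 1 := by
    rw [derivative_sub, derivative_one, sub_zero, derivative_X_pow]
    simp only [map_mul, map_pow, aeval_X, aeval_C, map_natCast, norm_mul, norm_pow, norm_pred,
      norm_unit, one_pow, mul_one]
  have hF : ∀ z : ℤ_[p], aeval z (X ^ (p - 1) - 1 : ℤ_[p][X]) = z ^ (p - 1) - 1 := by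
    intro z
    simp
  obtain ⟨z, h1, h2, -, h3⟩ := hensels_lemma (F := (X ^ (p - 1) - 1 : ℤ_[p][X]))
    (a := (x : ℤ_[p])) (by
      rw [hd, hF, one_pow]
      exact norm_pow_sub x)
  rw [hd] at h2 h3
  refine ⟨z, ?_, h2, ?_⟩
  · rw [hF] at h1
    exact sub_eq_zero.1 h1
  · intro z' h4 h5
    refine h3 z' ?_ h5
    rw [hF, h4, sub_self]

/-- The Teichmueller representative. -/
noncomputable def tei (x : ℤ_[p]ˣ) : ℤ_[p] := (exists_tei x).choose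

theorem tei_pow (x : ℤ_[p]ˣ) : tei x ^ (p - 1) = 1 := (exists_tei x).choose_spec.1

theorem tei_sub (x : ℤ_[p]ˣ) : ‖tei x - x‖ < 1 := (exists_tei x).choose_spec.2.1

theorem tei_uniq (x : ℤ_[p]ˣ) (z : ℤ_[p]) (h : z ^ (p - 1) = 1) (h' : ‖z - x‖ < 1) :
    z = tei x := (exists_tei x).choose_spec.2.2 z h h'

theorem tei_mul (x y : ℤ_[p]ˣ) : tei (x * y) = tei x * tei y := by
  refine (tei_uniq (x * y) (tei x * tei y) ?_ ?_).symm
  · rw [mul_pow, tei_pow, tei_pow, one_mul]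
  · have h1 : tei x * tei y - ((x * y : ℤ_[p]ˣ) : ℤ_[p])
        = tei x * (tei y - y) + (tei x - x) * y := by
      push_cast
      ring
    rw [h1]
    refine lt_of_le_of_lt (PadicInt.nonarchimedean _ _) (max_lt ?_ ?_)
    · rw [norm_mul]
      exact lt_of_le_of_lt (mul_le_of_le_one_left (norm_nonneg _) (PadicInt.norm_le_one _))
        (tei_sub y)
    · rw [norm_mul, norm_unit, mul_one]
      exact tei_sub x

end

theorem a_tei : Pool.Agent.Helper38.SD.A_TEI := by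
  intro p hp
  have hp1 : p - 1 ≠ 0 := by
    have := hp.out.one_lt
    omega
  let o : ℤ_[p]ˣ →* ℤ_[p]ˣ := MonoidHom.mk' (fun x => Units.ofPowEqOne (tei x) (p - 1)
    (tei_pow x) hp1) (fun x y => Units.ext (tei_mul x y))
  have ho : ∀ x, ((o x : ℤ_[p]ˣ) : ℤ_[p]) = tei x := fun x => rfl
  refine ⟨o, o⁻¹ * MonoidHom.id _, ?_, ?_, ?_⟩
  · intro x
    show x = o x * ((o x)⁻¹ * x)
    rw [mul_inv_cancel_left]
  · intro x
    refine Units.ext ?_
    rw [Units.val_pow_eq_pow_val, ho, tei_pow, Units.val_one]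
  · intro x
    show (p : ℤ_[p]) ∣ (((o x)⁻¹ * x : ℤ_[p]ˣ) : ℤ_[p]) - 1
    have h1 : (((o x)⁻¹ * x : ℤ_[p]ˣ) : ℤ_[p]) - 1
        = (((o x)⁻¹ : ℤ_[p]ˣ) : ℤ_[p]) * ((x : ℤ_[p]) - tei x) := by
      rw [Units.val_mul, mul_sub, ← ho x, Units.inv_mul]
    rw [h1, ← PadicInt.norm_lt_one_iff_dvd, norm_mul, norm_unit, one_mul, norm_sub_rev]
    exact tei_sub x

end Pool.Agent.Helper83.SD
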