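import Pool.Agent.Helper45.SD.Goals

set_option autoImplicit false

/-!
Packet EP of MP_9415b6_co.
-/

open Finset

namespace Pool.Agent.Helper83.SD

open Pool.Agent.Helper45.SD

theorem bs_MM (p M k : ℕ) (hM : 0 < M) (hk : k < M) :
    Bs (p * M) k M M = (Ph M k : ℤ) := by
  unfold Bs Ph
  rw [Finset.card_filter]
  push_cast
  apply Finset.sum_congr rfl
  intro j hj
  rw [Finset.mem_Icc] at hj
  have h1 : (k - j) / M = 0 := Nat.div_eq_of_lt (by omega)
  have h2 : (M / Nat.gcd M j = M) ↔ Nat.Coprime j M := by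
    rw [Nat.coprime_comm]
    constructor
    · intro h
      have h3 : M / Nat.gcd M j * Nat.gcd M j = M := Nat.div_mul_cancel (Nat.gcd_dvd_left M j)
      rw [h] at h3
      have h4 : M * Nat.gcd M j = M * 1 := by rw [h3, mul_one]
      exact Nat.eq_of_mul_eq_mul_left hM h4
    · intro h
      rw [show Nat.gcd M j = 1 from h, Nat.div_one]
  by_cases hc : Nat.Coprime j M
  · rw [if_pos (h2.mpr hc), if_pos hc, h1]
    simp [ep]
  · rw [if_neg (fun h => hc (h2.mp h)), if_neg hc]

theorem bs_nM (p M k : ℕ) (hp : 0 < p) (hM : 0 < M) (hk : k < p * M) :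
    Bs (p * M) k (p * M) M = (Ph M (k / p) : ℤ) := by
  unfold Bs Ph
  have hn : 0 < p * M := Nat.mul_pos hp hM
  have h1 : ∀ j ∈ Finset.Icc 1 k, (if (p * M) / Nat.gcd (p * M) j = M then
      ep ((p * M) / (p * M)) ((k - j) / (p * M)) else 0) =
      if (p * M) / Nat.gcd (p * M) j = M then (1 : ℤ) else 0 := by
    intro j hj
    rw [Finset.mem_Icc] at hj
    have h2 : (k - j) / (p * M) = 0 := Nat.div_eq_of_lt (by omega)
    rw [h2]
    simp [ep]
  have h0 : (∑ x ∈ Icc 1 k, if p * M / (p * M).gcd x = M then (1 : ℤ) else 0) =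
      (((Icc 1 k).filter (fun x => p * M / (p * M).gcd x = M)).card : ℤ) := by
    rw [Finset.card_filter]
    push_cast
    rfl
  rw [Finset.sum_congr rfl h1, h0]
  norm_cast
  symm
  apply Finset.card_bij (fun i _ => p * i)
  · intro i hi
    rw [Finset.mem_filter, Finset.mem_Icc] at hi ⊢
    refine ⟨⟨Nat.mul_pos hp (by omega), ?_⟩, ?_⟩
    · calc p * i ≤ p * (k / p) := Nat.mul_le_mul_left p hi.1.2
        _ ≤ k := Nat.mul_div_le k p
    · have h3 : Nat.gcd (p * M) (p * i) = p := by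
        rw [Nat.gcd_mul_left, Nat.gcd_comm, show Nat.gcd i M = 1 from hi.2, mul_one]
      rw [h3, Nat.mul_div_cancel_left M hp]
  · intro a _ b _ h
    exact Nat.eq_of_mul_eq_mul_left hp h
  · intro j hj
    rw [Finset.mem_filter, Finset.mem_Icc] at hj
    have h4 : Nat.gcd (p * M) j = p := by
      have h5 : (p * M) / Nat.gcd (p * M) j * Nat.gcd (p * M) j = p * M :=
        Nat.div_mul_cancel (Nat.gcd_dvd_left _ _)
      rw [hj.2] at h5
      have h6 : M * Nat.gcd (p * M) j = M * p := by rw [h5, mul_comm]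
      exact Nat.eq_of_mul_eq_mul_left hM h6
    have h7 : p ∣ j := by
      have := Nat.gcd_dvd_right (p * M) j
      rwa [h4] at this
    obtain ⟨i, rfl⟩ := h7
    refine ⟨i, ?_, rfl⟩
    rw [Finset.mem_filter, Finset.mem_Icc]
    refine ⟨⟨?_, ?_⟩, ?_⟩
    · rcases Nat.eq_zero_or_pos i with h | h
      · subst h
        omega
      · exact h
    · rw [Nat.le_div_iff_mul_le hp, mul_comm]
      exact hj.1.2
    · rw [Nat.gcd_mul_left] at h4
      have h8 : p * Nat.gcd M i = p * 1 := by rw [h4, mul_one]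
      have h9 := Nat.eq_of_mul_eq_mul_left hp h8
      rw [Nat.coprime_comm]
      exact h9

theorem sum_av (p M k g : ℕ) (hp : p.Prime) (hM : 0 < M) :
    ∑ s ∈ (p * M).divisors, rg g s * Bs (p * M) k s M =
      rg g M * Bs (p * M) k M M + rg g (p * M) * Bs (p * M) k (p * M) M := by
  classical
  have hne : M ≠ p * M := by
    intro h
    have h2 := hp.two_le
    nlinarith
  have hsub : ({M, p * M} : Finset ℕ) ⊆ (p * M).divisors := by
    intro s hs
    rw [Finset.mem_insert, Finset.mem_singleton] at hs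
    rw [Nat.mem_divisors]
    refine ⟨?_, Nat.mul_ne_zero hp.ne_zero hM.ne'⟩
    rcases hs with h | h
    · rw [h]
      exact Dvd.intro_left p rfl
    · rw [h]
  rw [← Finset.sum_subset hsub, Finset.sum_pair hne]
  intro s hs hs2
  rw [Nat.mem_divisors] at hs
  have hz : Bs (p * M) k s M = 0 := by
    unfold Bs
    apply Finset.sum_eq_zero
    intro j _
    rw [if_neg]
    intro h
    have hMs : M ∣ s := by
      rw [← h]
      exact Nat.div_dvd_of_dvd (Nat.gcd_dvd_left s j)
    obtain ⟨d, rfl⟩ := hMs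
    have hd : d ∣ p := by
      have h3 : M * d ∣ M * p := by
        rw [mul_comm M p]
        exact hs.1
      exact Nat.dvd_of_mul_dvd_mul_left hM h3
    apply hs2
    rw [Finset.mem_insert, Finset.mem_singleton]
    rcases (Nat.dvd_prime hp).mp hd with h4 | h4
    · left
      rw [h4, mul_one]
    · right
      rw [h4, mul_comm]
  rw [hz, mul_zero]

theorem ph_dvd (p M k : ℕ) (hpM : p ∣ M) : Ph (p * M) k = Ph M k := by
  unfold Ph
  congr 1
  apply Finset.filter_congr
  intro j _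
  rw [Nat.coprime_mul_iff_right]
  constructor
  · exact fun h => h.2
  · exact fun h => ⟨Nat.Coprime.coprime_dvd_right hpM h, h⟩

theorem ph_not_dvd (p M k : ℕ) (hp : p.Prime) (hpM : ¬ p ∣ M) :
    Ph (p * M) k + Ph M (k / p) = Ph M k := by
  classical
  unfold Ph
  have h1 : ((Finset.Icc 1 k).filter (fun j => Nat.Coprime j M)) =
      ((Finset.Icc 1 k).filter (fun j => Nat.Coprime j (p * M))) ∪
      ((Finset.Icc 1 (k / p)).filter (fun j => Nat.Coprime j M)).image (fun i => p * i) := by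
    ext j
    rw [Finset.mem_union, Finset.mem_image, Finset.mem_filter, Finset.mem_filter,
      Finset.mem_Icc]
    constructor
    · rintro ⟨hj, hc⟩
      by_cases hpj : p ∣ j
      · right
        obtain ⟨i, rfl⟩ := hpj
        refine ⟨i, ?_, rfl⟩
        rw [Finset.mem_filter, Finset.mem_Icc]
        refine ⟨⟨?_, ?_⟩, Nat.Coprime.coprime_dvd_left (Dvd.intro_left p rfl) hc⟩
        · rcases Nat.eq_zero_or_pos i with h | h
          · subst h
            omega
          · exact h
        · rw [Nat.le_div_iff_mul_le hp.pos, mul_comm]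
          exact hj.2
      · left
        refine ⟨hj, ?_⟩
        rw [Nat.coprime_mul_iff_right]
        refine ⟨?_, hc⟩
        rw [Nat.coprime_comm]
        exact (Nat.Prime.coprime_iff_not_dvd hp).mpr hpj
    · rintro (⟨hj, hc⟩ | ⟨i, hi, rfl⟩)
      · rw [Nat.coprime_mul_iff_right] at hc
        exact ⟨hj, hc.2⟩
      · rw [Finset.mem_filter, Finset.mem_Icc] at hi
        refine ⟨⟨Nat.mul_pos hp.pos (by omega), ?_⟩, ?_⟩
        · calc p * i ≤ p * (k / p) := Nat.mul_le_mul_left p hi.1.2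
            _ ≤ k := Nat.mul_div_le k p
        · rw [Nat.coprime_mul_iff_left]
          exact ⟨(Nat.Prime.coprime_iff_not_dvd hp).mpr hpM, hi.2⟩
  have h2 : Disjoint ((Finset.Icc 1 k).filter (fun j => Nat.Coprime j (p * M)))
      (((Finset.Icc 1 (k / p)).filter (fun j => Nat.Coprime j M)).image (fun i => p * i)) := by
    rw [Finset.disjoint_left]
    intro j hj hj2
    rw [Finset.mem_filter, Nat.coprime_mul_iff_right] at hj
    rw [Finset.mem_image] at hj2
    obtain ⟨i, _, rfl⟩ := hj2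
    have h3 := hj.2.1
    rw [Nat.coprime_mul_iff_left] at h3
    have h4 : Nat.gcd p p = 1 := h3.1
    rw [Nat.gcd_self] at h4
    exact hp.one_lt.ne' h4
  rw [h1, Finset.card_union_of_disjoint h2, Finset.card_image_of_injective]
  intro a b h
  exact Nat.eq_of_mul_eq_mul_left hp.pos h

theorem ph_lt (p M k : ℕ) (hp : 2 ≤ p) (hM : Odd M) (hk : 1 ≤ k) : Ph M (k / p) < Ph M k := by
  unfold Ph
  apply Finset.card_lt_card
  rw [Finset.ssubset_iff_of_subset]
  · have h1 : 2 ^ Nat.log 2 k ≤ k := Nat.pow_log_le_self 2 (by omega)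
    have h2 : k < 2 ^ (Nat.log 2 k + 1) := Nat.lt_pow_succ_log_self (by norm_num) k
    have h3 : k / p ≤ k / 2 := Nat.div_le_div_left hp (by norm_num)
    refine ⟨2 ^ Nat.log 2 k, ?_, ?_⟩
    · rw [Finset.mem_filter, Finset.mem_Icc]
      refine ⟨⟨Nat.one_le_two_pow, h1⟩, ?_⟩
      apply Nat.Coprime.pow_left
      exact Nat.coprime_two_left.mpr hM
    · rw [Finset.mem_filter, Finset.mem_Icc]
      rintro ⟨⟨_, h4⟩, _⟩
      rw [pow_succ] at h2
      omega
  · intro j hj
    rw [Finset.mem_filter, Finset.mem_Icc] at hj ⊢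
    exact ⟨⟨hj.1.1, hj.1.2.trans (Nat.div_le_self k p)⟩, hj.2⟩

theorem ph_pos (M k : ℕ) (hk : 1 ≤ k) : 0 < Ph M k := by
  unfold Ph
  rw [Finset.card_pos]
  refine ⟨1, ?_⟩
  rw [Finset.mem_filter, Finset.mem_Icc]
  exact ⟨⟨le_rfl, hk⟩, Nat.coprime_one_left M⟩

theorem ep_pf (hR4 : G_R4) : G_EP := by
  intro p M k g hp hp3 hM2 hMo _hq hpk hkM hg hr hAV
  have hM0 : 0 < M := by omega
  obtain ⟨hrM, hnd, hd⟩ := hR4 p M g hp hM0 hg hr
  have h1 := hAV M (Dvd.intro_left p rfl) (by omega)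
  have hkn : k < p * M := by nlinarith
  rw [sum_av p M k g hp hM0, bs_MM p M k hM0 hkM, bs_nM p M k hp.pos hM0 hkn] at h1
  have hkp : 1 ≤ k / p := (Nat.one_le_div_iff hp.pos).mpr hpk
  have hP1 : 0 < Ph M (k / p) := ph_pos M (k / p) hkp
  have hP2 : Ph M (k / p) < Ph M k := ph_lt p M k (by omega) hMo (by omega)
  have hP3 : 0 < Ph (p * M) k := ph_pos (p * M) k (by omega)
  have hphi : (0 : ℤ) < (Nat.totient M : ℤ) := by exact_mod_cast Nat.totient_pos.mpr hM0
  set r : ℤ := rg g (p * M) with hrdef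
  set r' : ℤ := rg g M with hr'def
  have hpZ : (3 : ℤ) ≤ (p : ℤ) := by exact_mod_cast hp3
  by_cases hpM : p ∣ M
  · have e1 : Nat.totient (p * M) = p * Nat.totient M :=
      Nat.totient_mul_of_prime_of_dvd hp hpM
    rw [e1, ph_dvd p M k hpM] at h1
    push_cast at h1
    have h2 : (p : ℤ) * (r' * (Ph M k : ℤ) + r * (Ph M (k / p) : ℤ)) = r * (Ph M k : ℤ) := by
      apply mul_left_cancel₀ hphi.ne'
      linarith
    have hP1' : (0 : ℤ) < (Ph M (k / p) : ℤ) := by exact_mod_cast hP1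
    have hP2' : (Ph M (k / p) : ℤ) < (Ph M k : ℤ) := by exact_mod_cast hP2
    rcases hd hpM with h3 | h3
    · have h4 : (p : ℤ) * (r * (Ph M (k / p) : ℤ)) = 0 := by
        rw [h3] at h2 ⊢
        linarith
      rcases mul_eq_zero.mp h4 with h5 | h5
      · omega
      · rcases mul_eq_zero.mp h5 with h6 | h6
        · exact hr h6
        · omega
    · have h4 : (p : ℤ) * ((p : ℤ) * r') * ((Ph M k : ℤ) - (Ph M (k / p) : ℤ)) = 0 := by
        have h5 : ((p : ℤ) - 1) * ((p : ℤ) * (r' * (Ph M k : ℤ) + r * (Ph M (k / p) : ℤ))) =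
          ((p : ℤ) - 1) * (r * (Ph M k : ℤ)) := by rw [h2]
        have h6 : ((p : ℤ) - 1) * (r * (Ph M k : ℤ)) = -((p : ℤ) * r') * (Ph M k : ℤ) := by
          rw [← mul_assoc, h3]
        have h7 : ((p : ℤ) - 1) * ((p : ℤ) * (r' * (Ph M k : ℤ) + r * (Ph M (k / p) : ℤ))) =
            (p : ℤ) * (((p : ℤ) - 1) * r' * (Ph M k : ℤ) +
              (((p : ℤ) - 1) * r) * (Ph M (k / p) : ℤ)) := by ring
        rw [h7, h6, h3] at h5
        linarith
      have hpr : (p : ℤ) * ((p : ℤ) * r') ≠ 0 := by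
        have : (p : ℤ) ≠ 0 := by omega
        exact mul_ne_zero this (mul_ne_zero this hrM)
      rcases mul_eq_zero.mp h4 with h5 | h5
      · exact hpr h5
      · omega
  · have e1 : Nat.totient (p * M) = (p - 1) * Nat.totient M :=
      Nat.totient_mul_of_prime_of_not_dvd hp hpM
    have e2 := ph_not_dvd p M k hp hpM
    have e2' : (Ph (p * M) k : ℤ) = (Ph M k : ℤ) - (Ph M (k / p) : ℤ) := by
      have : ((Ph (p * M) k + Ph M (k / p) : ℕ) : ℤ) = (Ph M k : ℤ) := by rw [e2]
      push_cast at this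
      linarith
    rw [e1] at h1
    push_cast [Nat.cast_sub hp.one_le] at h1
    have h2 : ((p : ℤ) - 1) * (r' * (Ph M k : ℤ) + r * (Ph M (k / p) : ℤ)) =
        r * (Ph (p * M) k : ℤ) := by
      apply mul_left_cancel₀ hphi.ne'
      linarith
    have hP1' : (0 : ℤ) < (Ph M (k / p) : ℤ) := by exact_mod_cast hP1
    have hP3' : (0 : ℤ) < (Ph (p * M) k : ℤ) := by exact_mod_cast hP3
    rcases hnd hpM with h3 | h3
    · have h4 : (((p : ℤ) - 1) * r') * ((p : ℤ) * (Ph M (k / p) : ℤ)) = 0 := by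
        rw [h3, e2'] at h2
        linarith
      rcases mul_eq_zero.mp h4 with h5 | h5
      · exact hr (by rw [h3, h5])
      · rcases mul_eq_zero.mp h5 with h6 | h6
        · omega
        · omega
    · have h4 : (p : ℤ) * (r' * (Ph (p * M) k : ℤ)) = 0 := by
        rw [h3] at h2
        have h5 : r' * (Ph M k : ℤ) + -r' * (Ph M (k / p) : ℤ) = r' * (Ph (p * M) k : ℤ) := by
          rw [e2']
          ring
        rw [h5] at h2
        linarith
      rcases mul_eq_zero.mp h4 with h5 | h5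
      · omega
      · rcases mul_eq_zero.mp h5 with h6 | h6
        · exact hrM h6
        · omega

end Pool.Agent.Helper83.SD
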